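import Mathlib

set_option autoImplicit false

namespace Pool.Agent.Results.MP_03cbb9_co.Counter

/-- Neighbor-locating colourings. -/
def IsNL {V : Type} (G : SimpleGraph V) {k : ℕ} (c : V → Fin k) : Prop :=
  (∀ u v, G.Adj u v → c u ≠ c v) ∧
    ∀ u v, u ≠ v → c u = c v → c '' G.neighborSet u ≠ c '' G.neighborSet v

/-- The neighbor-locating chromatic number. -/
noncomputable def chiNL {V : Type} (G : SimpleGraph V) : ℕ := sInf {k | ∃ c : V → Fin k, IsNL G c}

/-- The Mycielski graph: `some (inl u)` is `u`, `some (inr u)` is `u'`, `none` is `w`. -/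
def myc {V : Type} (G : SimpleGraph V) : SimpleGraph (Option (V ⊕ V)) :=
  SimpleGraph.fromRel fun x y =>
    match x, y with
    | some (Sum.inl u), some (Sum.inl v) => G.Adj u v
    | some (Sum.inr u), some (Sum.inl v) => G.Adj u v
    | none, some (Sum.inr _) => True
    | _, _ => False

def ed : List (Fin 8 × Fin 8) := [(0, 1), (0, 3), (0, 5), (0, 7), (1, 6), (2, 6), (3, 4)]

def T : SimpleGraph (Fin 8) := SimpleGraph.fromRel fun u v => (u, v) ∈ ed

instance : DecidableRel T.Adj := fun u v => by unfold T; rw [SimpleGraph.fromRel_adj]; infer_instance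

instance : DecidableRel (myc T).Adj := fun x y => by
  unfold myc; rw [SimpleGraph.fromRel_adj]
  rcases x with _ | u | u <;> rcases y with _ | v | v <;> simp only <;> infer_instance

lemma isNL_iff {V : Type} (G : SimpleGraph V) {k : ℕ} (c : V → Fin k) : IsNL G c ↔
    (∀ u v, G.Adj u v → c u ≠ c v) ∧ ∀ u v, u ≠ v → c u = c v →
      ¬ ∀ x, (∃ w, G.Adj u w ∧ c w = x) ↔ ∃ w, G.Adj v w ∧ c w = x := by
  simp only [IsNL, Ne, Set.ext_iff, Set.mem_image, SimpleGraph.mem_neighborSet]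

def col : Option (Fin 8 ⊕ Fin 8) → Fin 4
  | none => 3
  | some (Sum.inl u) => ![2, 0, 0, 3, 0, 0, 1, 3] u
  | some (Sum.inr u) => ![2, 0, 2, 1, 0, 0, 1, 1] u

lemma no3 (c : Fin 8 → Fin 3) : ¬ IsNL T c := by
  have key : ∀ a0 a1 : Fin 3, a0 ≠ a1 → ∀ a3 : Fin 3, a0 ≠ a3 → ∀ a5 : Fin 3, a0 ≠ a5 →
      ∀ a7 : Fin 3, a0 ≠ a7 → ∀ a6 : Fin 3, a1 ≠ a6 → ∀ a2 : Fin 3, a2 ≠ a6 →
      ∀ a4 : Fin 3, a3 ≠ a4 → ¬ IsNL T ![a0, a1, a2, a3, a4, a5, a6, a7] := by
    simp only [isNL_iff]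
    set_option synthInstance.maxSize 4000 in
    decide +kernel
  intro h
  have e : c = ![c 0, c 1, c 2, c 3, c 4, c 5, c 6, c 7] := by
    funext i; fin_cases i <;> rfl
  refine key (c 0) (c 1) ?_ (c 3) ?_ (c 5) ?_ (c 7) ?_ (c 6) ?_ (c 2) ?_ (c 4) ?_ (e ▸ h) <;>
    exact h.1 _ _ (by decide)

theorem result : ∃ (n : ℕ) (G : SimpleGraph (Fin n)), G.Connected ∧
    chiNL (myc G) ≤ chiNL G := by
  refine ⟨8, T, by decide +kernel, ?_⟩
  have h1 : chiNL (myc T) ≤ 4 := Nat.sInf_le ⟨col, by rw [isNL_iff]; decide +kernel⟩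
  refine h1.trans (le_csInf ⟨8, id, fun u v h => h.ne, fun u v h h' => absurd h' h⟩ ?_)
  rintro k ⟨c, hc⟩
  by_contra hk
  have hk3 : k ≤ 3 := by omega
  have inj := Fin.castLE_injective hk3
  refine no3 (Fin.castLE hk3 ∘ c) ⟨fun u v h h' => hc.1 u v h (inj h'), fun u v h h' h'' => ?_⟩
  rw [Set.image_comp, Set.image_comp] at h''
  exact hc.2 u v h (inj h') (inj.image_injective h'')

end Pool.Agent.Results.MP_03cbb9_co.Counter
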